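import Mathlib
import Pool.Agent.N604.MW.Stm10
import Pool.Agent.N933.KW_DKey

/-!
# AD/AKEY2: the moment of `GD` when enough frequencies are large
-/

namespace Pool.Agent.N296.AD

open Finset MeasureTheory Pool.Agent.N604.MW Pool.Agent.N933.KW

theorem akey2 (h1 : S_ASUP) (h2 : S_GREEDY) (h3 : S_DMEASQ) : S_AKEY2 := by
  intro r m k s hr hrk hnr hks hineq
  obtain ⟨C, hC, X0, hX0⟩ := h1 r m k hr hrk hnr
  set n := 2 * m with hn
  have hrn : r + 1 ≤ n := by
    refine le_trans ?_ hnr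
    unfold nr
    have h2 : 1 ≤ 2 ^ (r + 2) := Nat.one_le_two_pow
    calc r + 1 ≤ 4 * r * (r + 2) * 1 := by nlinarith
      _ ≤ _ := by gcongr
  have hu := (expo0 r n k s 0 hr hnr hks hineq (by omega)).1
  set A : ℝ := 2 ^ (n + 1) + C with hA
  have hA0 : 0 < A := by positivity
  set K : ℝ := A ^ s * 2 ^ n * 2 ^ (n * s + n * n) * 6 ^ n * 2 ^ n with hK
  have hK0 : 0 < K := by positivity
  set E : ℝ := 2 ^ s * (n * K) + 2 ^ s * 6 ^ n with hE
  have hE0 : 0 < E := by positivity
  have hlo : ∀ᶠ X : ℕ in Filter.atTop, E * Real.log X ^ (s + n) ≤ X := by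
    have h := (Real.isLittleO_pow_log_id_atTop (n := s + n)).bound (inv_pos.2 hE0)
    have h' := (tendsto_natCast_atTop_atTop (R := ℝ)).eventually h
    filter_upwards [h', Filter.eventually_ge_atTop 1] with X hX hX1
    have hX1' : (1 : ℝ) ≤ X := by exact_mod_cast hX1
    have hl : 0 ≤ Real.log X := Real.log_nonneg hX1'
    rw [Real.norm_of_nonneg (by positivity), id, Real.norm_of_nonneg (by positivity)] at hX
    calc E * Real.log X ^ (s + n) ≤ E * (E⁻¹ * X) := by gcongr
      _ = X := by field_simp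
  obtain ⟨X1, hX1⟩ := Filter.eventually_atTop.1 hlo
  refine ⟨max (max X0 X1) (max 3 ⌈Real.exp n⌉₊), ?_⟩
  intro X hX
  have hXa : X0 ≤ X := ((le_max_left _ _).trans (le_max_left _ _)).trans hX
  have hXa' : X1 ≤ X := ((le_max_right _ _).trans (le_max_left _ _)).trans hX
  have hXb : 3 ≤ X := ((le_max_left _ _).trans (le_max_right _ _)).trans hX
  have hXc : Real.exp n ≤ X :=
    Nat.ceil_le.1 (((le_max_right _ _).trans (le_max_right _ _)).trans hX)
  have hX3 : (3 : ℝ) ≤ X := by exact_mod_cast hXb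
  have hX0' : (0 : ℝ) < X := by linarith
  set T : ℝ := Real.log X with hT
  have hT1 : 1 ≤ T := by
    rw [hT, Real.le_log_iff_exp_le hX0']
    have := Real.exp_one_lt_d9
    linarith
  have hTn : (n : ℝ) ≤ T := by
    rw [hT, Real.le_log_iff_exp_le hX0']; exact hXc
  -- the tail is at most 1
  have htail : ((X : ℝ) + 1) ^ n * Real.exp (-(2 * Real.pi ^ 2 * T ^ 2)) ≤ 1 := by
    have e1 : ((X : ℝ) + 1) ≤ Real.exp (2 * T) := by
      have : Real.exp (2 * T) = (X : ℝ) ^ 2 := by
        rw [two_mul, Real.exp_add, hT, Real.exp_log hX0']; ring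
      rw [this]; nlinarith
    have e2 : ((X : ℝ) + 1) ^ n ≤ Real.exp (2 * T * n) := by
      calc ((X : ℝ) + 1) ^ n ≤ (Real.exp (2 * T)) ^ n := pow_le_pow_left₀ (by positivity) e1 _
        _ = _ := by rw [← Real.exp_nat_mul]; congr 1; ring
    calc _ ≤ Real.exp (2 * T * n) * Real.exp (-(2 * Real.pi ^ 2 * T ^ 2)) :=
          mul_le_mul_of_nonneg_right e2 (Real.exp_pos _).le
      _ = Real.exp (2 * T * n - 2 * Real.pi ^ 2 * T ^ 2) := by rw [← Real.exp_add]; congr 1
      _ ≤ 1 := by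
        apply Real.exp_le_one_iff.2
        have hpi : 1 ≤ Real.pi ^ 2 := by nlinarith [Real.pi_gt_three]
        have h3 : T * n ≤ T * T := mul_le_mul_of_nonneg_left hTn (by linarith)
        have h4 : T * T ≤ Real.pi ^ 2 * T ^ 2 := by nlinarith [sq_nonneg T]
        nlinarith
  set S : Set (Fin n → ℝ) := {γ : Fin n → ℝ | nr r ≤ NB n k r X γ} with hS
  -- pointwise bound
  have hpt : ∀ γ : Fin n → ℝ,
      S.indicator (fun γ => ENNReal.ofReal ((∏ j, qq (γ j)) * GD n k X γ ^ s)) γ ≤
        ∑ ρ ∈ Finset.Icc 1 (n - r), ENNReal.ofReal (2 ^ s) * (ENNReal.ofReal ((A * T) ^ s * 2 ^ n *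
          ((X : ℝ) + 1) ^ (ρ * (s - ρ))) * (Q n γ * RR k X n ρ T γ)) + ENNReal.ofReal (2 ^ s) * Q n γ := by
    intro γ
    by_cases hγ : γ ∈ S
    · rw [Set.indicator_of_mem hγ]
      have hq : 0 ≤ ∏ j, qq (γ j) := Finset.prod_nonneg fun j _ => qq_nonneg _
      have hV := UD_nonneg n k X T γ
      have hg : GD n k X γ ≤ UD n k X T γ + 1 := by
        have := GD_le n k X T (by linarith) γ
        linarith
      have hg2 : GD n k X γ ^ s ≤ 2 ^ s * (UD n k X T γ ^ s + 1) := by
        calc GD n k X γ ^ s ≤ (UD n k X T γ + 1) ^ s :=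
              pow_le_pow_left₀ (GD_nonneg _ _ _ _) hg s
          _ ≤ 2 ^ (s - 1) * (UD n k X T γ ^ s + 1 ^ s) := add_pow_le hV zero_le_one s
          _ ≤ 2 ^ s * (UD n k X T γ ^ s + 1) := by
            rw [one_pow]
            apply mul_le_mul_of_nonneg_right _ (by positivity)
            exact pow_le_pow_right₀ (by norm_num) (by omega)
      have hsup : UD n k X T γ ≤ (A * T) * ((X : ℝ) + 1) ^ (n - r) := by
        have h5 := hX0 X γ hXa hγ
        have h6 : (X : ℝ) ^ ((2 * (m : ℝ)) - r) = (X : ℝ) ^ (n - r) := by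
          rw [← Real.rpow_natCast, Nat.cast_sub (by omega)]
          congr 1
          rw [hn]; push_cast; ring
        have h7 : (X : ℝ) ^ (n - r) ≤ ((X : ℝ) + 1) ^ (n - r) := by
          gcongr; linarith
        have h8 : C * T ≤ A * T := by
          gcongr
          rw [hA]
          have : (0 : ℝ) < 2 ^ (n + 1) := by positivity
          linarith
        calc UD n k X T γ ≤ C * T * (X : ℝ) ^ (n - r) := by
              exact h5
          _ ≤ _ := by gcongr
      have hpo := point h2 n k s X (n - r) T (A * T) (by omega) (by omega) (by omega) (by omega) (by omega)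
        (by
          have : (0 : ℝ) < 2 ^ (n + 1) := by positivity
          nlinarith) γ hsup
      calc ENNReal.ofReal ((∏ j, qq (γ j)) * GD n k X γ ^ s)
          ≤ ENNReal.ofReal ((∏ j, qq (γ j)) * (2 ^ s * (UD n k X T γ ^ s + 1))) :=
            ENNReal.ofReal_le_ofReal (mul_le_mul_of_nonneg_left hg2 hq)
        _ = ENNReal.ofReal (2 ^ s) * (Q n γ * ENNReal.ofReal (UD n k X T γ ^ s)) +
            ENNReal.ofReal (2 ^ s) * Q n γ := by
            unfold Q
            rw [← ENNReal.ofReal_mul hq, ← ENNReal.ofReal_mul (by positivity),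
              ← ENNReal.ofReal_mul (by positivity), ← ENNReal.ofReal_add (by positivity) (by positivity)]
            congr 1
            ring
        _ ≤ ENNReal.ofReal (2 ^ s) * (Q n γ * ∑ ρ ∈ Finset.Icc 1 (n - r),
              ENNReal.ofReal ((A * T) ^ s * 2 ^ n * ((X : ℝ) + 1) ^ (ρ * (s - ρ))) * RR k X n ρ T γ) +
            ENNReal.ofReal (2 ^ s) * Q n γ := by
            gcongr
        _ = _ := by
            rw [Finset.mul_sum, Finset.mul_sum]
            congr 1
            apply Finset.sum_congr rfl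
            intro ρ _
            ring
    · rw [Set.indicator_of_notMem hγ]
      exact zero_le
  set P : ℝ := (X : ℝ) ^ ((n : ℝ) * ((s : ℝ) - k) - k - 2) with hP
  have hP1 : 1 ≤ P := by
    have h5 := (expo0 r n k s 0 hr hnr hks hineq (by omega)).2
    apply Real.one_le_rpow (by linarith)
    push_cast at h5
    linarith
  have hTp : 1 ≤ T ^ (s + n) := one_le_pow₀ hT1
  have hmQR : ∀ ρ, Measurable fun γ => Q n γ * RR k X n ρ T γ := fun ρ => (Q_meas n).mul (measurable_RR _ _ _ _ _)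
  calc ∫⁻ γ : Fin n → ℝ, S.indicator
        (fun γ => ENNReal.ofReal ((∏ j, qq (γ j)) * GD n k X γ ^ s)) γ
      ≤ ∫⁻ γ : Fin n → ℝ, (∑ ρ ∈ Finset.Icc 1 (n - r), ENNReal.ofReal (2 ^ s) * (ENNReal.ofReal ((A * T) ^ s * 2 ^ n *
          ((X : ℝ) + 1) ^ (ρ * (s - ρ))) * (Q n γ * RR k X n ρ T γ)) + ENNReal.ofReal (2 ^ s) * Q n γ) :=
        lintegral_mono hpt
    _ = ∑ ρ ∈ Finset.Icc 1 (n - r), ENNReal.ofReal (2 ^ s) * (ENNReal.ofReal ((A * T) ^ s * 2 ^ n *
          ((X : ℝ) + 1) ^ (ρ * (s - ρ))) * ∫⁻ γ, Q n γ * RR k X n ρ T γ) +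
          ENNReal.ofReal (2 ^ s) * ∫⁻ γ, Q n γ := by
        rw [lintegral_add_right _ ((Q_meas n).const_mul _), lintegral_const_mul' _ _ ENNReal.ofReal_ne_top,
          lintegral_finsetSum]
        · congr 1
          apply Finset.sum_congr rfl
          intro ρ _
          rw [lintegral_const_mul' _ _ ENNReal.ofReal_ne_top, lintegral_const_mul' _ _ ENNReal.ofReal_ne_top]
        · intro ρ _
          exact ((hmQR ρ).const_mul _).const_mul _
    _ ≤ ∑ ρ ∈ Finset.Icc 1 (n - r), ENNReal.ofReal (2 ^ s * (K * (T ^ (s + n) * P))) +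
          ENNReal.ofReal (2 ^ s * 6 ^ n) := by
        gcongr with ρ hρ
        · rw [Finset.mem_Icc] at hρ
          calc ENNReal.ofReal (2 ^ s) * (ENNReal.ofReal ((A * T) ^ s * 2 ^ n *
                ((X : ℝ) + 1) ^ (ρ * (s - ρ))) * ∫⁻ γ, Q n γ * RR k X n ρ T γ)
              ≤ ENNReal.ofReal (2 ^ s) * (ENNReal.ofReal ((A * T) ^ s * 2 ^ n *
                ((X : ℝ) + 1) ^ (ρ * (s - ρ))) * ENNReal.ofReal (((X : ℝ) + 1) ^ (n * ρ) *
                  (6 ^ n * (2 * T) ^ ρ / (X : ℝ) ^ (ρ * (k - 1))))) := by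
                gcongr
                exact int_RR h3 k X n ρ T (by linarith) (by omega)
            _ = ENNReal.ofReal (2 ^ s * ((A * T) ^ s * 2 ^ n * ((X : ℝ) + 1) ^ (ρ * (s - ρ)) *
                (((X : ℝ) + 1) ^ (n * ρ) * (6 ^ n * (2 * T) ^ ρ / (X : ℝ) ^ (ρ * (k - 1)))))) := by
                rw [← ENNReal.ofReal_mul (by positivity), ← ENNReal.ofReal_mul (by positivity)]
            _ ≤ _ := by
                apply ENNReal.ofReal_le_ofReal
                apply mul_le_mul_of_nonneg_left _ (by positivity)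
                exact expo r n k s ρ X A T hr hnr hks (by omega) hineq hρ.2 (by omega) hT1 hA0.le
        · rw [ENNReal.ofReal_mul (by positivity)]
          gcongr
          exact int_Q h3 n
    _ ≤ ENNReal.ofReal (2 ^ s * (n * K) * (T ^ (s + n) * P) + 2 ^ s * 6 ^ n) := by
        rw [Finset.sum_const, Nat.card_Icc, nsmul_eq_mul, ← ENNReal.ofReal_natCast, ← ENNReal.ofReal_mul (by positivity),
          ← ENNReal.ofReal_add (by positivity) (by positivity)]
        apply ENNReal.ofReal_le_ofReal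
        have h9 : ((n - r + 1 - 1 : ℕ) : ℝ) ≤ n := by exact_mod_cast (by omega : n - r + 1 - 1 ≤ n)
        calc _ ≤ (n : ℝ) * (2 ^ s * (K * (T ^ (s + n) * P))) + 2 ^ s * 6 ^ n := by gcongr
          _ = _ := by ring
    _ ≤ ENNReal.ofReal (E * T ^ (s + n) * P) := by
        apply ENNReal.ofReal_le_ofReal
        have h10 : 1 ≤ T ^ (s + n) * P := by nlinarith
        have h11 : (2 : ℝ) ^ s * 6 ^ n * 1 ≤ 2 ^ s * 6 ^ n * (T ^ (s + n) * P) := by gcongr
        rw [hE]
        nlinarith
    _ ≤ ENNReal.ofReal (X * P) := by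
        apply ENNReal.ofReal_le_ofReal
        gcongr
        exact hX1 X hXa'
    _ = _ := by
        congr 1
        rw [hP]
        nth_rewrite 1 [← Real.rpow_one (X : ℝ)]
        rw [← Real.rpow_add hX0']
        congr 1
        rw [hn]; push_cast; ring

end Pool.Agent.N296.AD
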