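import Pool.Agent.N979.CAP.Stm

/-!
# Project CAP of helper979, part FLX (helper296): loop sums converge to the integral
-/

set_option autoImplicit false

open Filter Topology Finset Set

namespace Pool.Agent.N296.CAPFLX

open Pool.Agent.H115R3.Filling Pool.Agent.N979.CAP

theorem one_arc (A B : ℝ) (hAB : A < B) (α β β' : ℝ → ℝ) (hα : Continuous α)
    (hβ : ∀ t, HasDerivAt β (β' t) t) (hβ' : Continuous β') (a : ℕ → ℕ → ℝ)
    (ha : ∀ n i : ℕ, a n i = A + (i : ℝ) / n * (B - A)) :
    Tendsto (fun n : ℕ => ∑ i ∈ range n, (α (a n i) + α (a n (i + 1))) / 2 *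
      (β (a n (i + 1)) - β (a n i))) atTop (𝓝 (∫ t in A..B, α t * β' t)) := by
  obtain ⟨M, hM⟩ := (isCompact_Icc (a := A) (b := B)).exists_bound_of_continuousOn hβ'.continuousOn
  have hM0 : 0 ≤ M := (norm_nonneg _).trans (hM A ⟨le_rfl, hAB.le⟩)
  rw [Metric.tendsto_atTop]
  intro ε hε
  have hL : 0 < B - A := sub_pos.2 hAB
  obtain ⟨η, hη⟩ : ∃ η : ℝ, η = ε / (2 * (M + 1) * (B - A)) := ⟨_, rfl⟩
  have hη0 : 0 < η := by rw [hη]; positivity
  have huc := (isCompact_Icc (a := A) (b := B)).uniformContinuousOn_of_continuous hα.continuousOn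
  rw [Metric.uniformContinuousOn_iff] at huc
  obtain ⟨δ, hδ, huc⟩ := huc η hη0
  obtain ⟨n0, hn0⟩ := exists_nat_gt ((B - A) / δ)
  refine ⟨n0 + 1, fun n hn => ?_⟩
  have hn1 : 0 < n := by omega
  have hnr : (0 : ℝ) < n := by exact_mod_cast hn1
  have hstep : (B - A) / n < δ := by
    rw [div_lt_iff₀ hnr]
    rw [div_lt_iff₀ hδ] at hn0
    have : (n0 : ℝ) ≤ n := by exact_mod_cast (by omega : n0 ≤ n)
    nlinarith
  have hmono : ∀ i, a n i ≤ a n (i + 1) := by
    intro i
    rw [ha, ha]
    push_cast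
    have : (i : ℝ) / n ≤ ((i : ℝ) + 1) / n := by gcongr; linarith
    nlinarith
  have hdiff : ∀ i, a n (i + 1) - a n i = (B - A) / n := by
    intro i
    rw [ha, ha]
    push_cast
    field_simp
    ring
  have h0 : a n 0 = A := by rw [ha]; simp
  have h1 : a n n = B := by rw [ha, div_self hnr.ne']; ring
  have hmem : ∀ i ∈ range n, ∀ t ∈ Icc (a n i) (a n (i + 1)), t ∈ Icc A B := by
    intro i hi t ht
    rw [Finset.mem_range] at hi
    refine ⟨le_trans ?_ ht.1, ht.2.trans ?_⟩
    · rw [ha]
      have : 0 ≤ (i : ℝ) / n * (B - A) := by positivity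
      linarith
    · rw [ha]
      have h2 : (((i + 1 : ℕ) : ℝ)) / n ≤ 1 := by
        rw [div_le_one hnr]
        exact_mod_cast hi
      nlinarith
  have hf : Continuous fun t => α t * β' t := hα.mul hβ'
  have hint : ∫ t in A..B, α t * β' t = ∑ i ∈ range n, ∫ t in (a n i)..(a n (i + 1)), α t * β' t := by
    have h2 := intervalIntegral.sum_integral_adjacent_intervals (f := fun t => α t * β' t)
      (μ := MeasureTheory.volume) (a := a n) (n := n) (fun k _ => hf.intervalIntegrable _ _)
    rw [h2, h0, h1]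
  rw [hint, Real.dist_eq, ← Finset.sum_sub_distrib]
  refine lt_of_le_of_lt (Finset.abs_sum_le_sum_abs _ _) ?_
  have hterm : ∀ i ∈ range n, |(α (a n i) + α (a n (i + 1))) / 2 * (β (a n (i + 1)) - β (a n i)) -
      ∫ t in (a n i)..(a n (i + 1)), α t * β' t| ≤ η * M * ((B - A) / n) := by
    intro i hi
    have e1 : β (a n (i + 1)) - β (a n i) = ∫ t in (a n i)..(a n (i + 1)), β' t :=
      (intervalIntegral.integral_eq_sub_of_hasDerivAt (fun t _ => hβ t)
        (hβ'.intervalIntegrable _ _)).symm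
    rw [e1, ← intervalIntegral.integral_const_mul, ← intervalIntegral.integral_sub
      ((hβ'.intervalIntegrable _ _).const_mul _) (hf.intervalIntegrable _ _)]
    have e2 := intervalIntegral.norm_integral_le_of_norm_le_const (a := a n i) (b := a n (i + 1))
      (f := fun t => (α (a n i) + α (a n (i + 1))) / 2 * β' t - α t * β' t) (C := η * M) (by
        intro t ht
        rw [uIoc_of_le (hmono i)] at ht
        have ht' : t ∈ Icc (a n i) (a n (i + 1)) := ⟨ht.1.le, ht.2⟩
        have e3 : (α (a n i) + α (a n (i + 1))) / 2 * β' t - α t * β' t =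
            ((α (a n i) - α t) / 2 + (α (a n (i + 1)) - α t) / 2) * β' t := by ring
        rw [e3, norm_mul]
        have e4 : ∀ s ∈ Icc (a n i) (a n (i + 1)), |α s - α t| ≤ η := by
          intro s hs
          have := huc s (hmem i hi s hs) t (hmem i hi t ht') (by
            rw [Real.dist_eq, abs_lt]
            have := hdiff i
            constructor <;> linarith [hs.1, hs.2, ht'.1, ht'.2])
          rw [Real.dist_eq] at this
          exact this.le
        have e5 := e4 (a n i) ⟨le_rfl, hmono i⟩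
        have e6 := e4 (a n (i + 1)) ⟨hmono i, le_rfl⟩
        refine mul_le_mul ?_ (hM t (hmem i hi t ht')) (norm_nonneg _) hη0.le
        rw [Real.norm_eq_abs]
        rw [abs_le] at e5 e6 ⊢
        constructor <;> linarith [e5.1, e5.2, e6.1, e6.2])
    rw [Real.norm_eq_abs, hdiff i, abs_of_pos (div_pos hL hnr)] at e2
    exact e2
  refine lt_of_le_of_lt (Finset.sum_le_sum hterm) ?_
  rw [Finset.sum_const, Finset.card_range, nsmul_eq_mul]
  have e7 : (n : ℝ) * (η * M * ((B - A) / n)) = η * M * (B - A) := by field_simp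
  rw [e7]
  have e8 : η * (M + 1) * (B - A) = ε / 2 := by
    rw [hη]
    have : (0 : ℝ) < M + 1 := by linarith
    field_simp
  have e9 : η * M * (B - A) ≤ η * (M + 1) * (B - A) := by
    have : 0 < η * (B - A) := by positivity
    nlinarith
  linarith

/-- **CAP/FLX** -/
theorem main : S_FLX := by
  intro m brk hmono h0 h1 α β β' hα hβ hβ' hα2 hβ2
  have hf : Continuous fun t => α t * β' t := hα.mul hβ'
  have hk : ∀ k : Fin m, Tendsto (fun n : ℕ => ∑ i ∈ range n,
      (α (arc brk k ((i : ℝ) / n)) + α (arc brk k (((i + 1 : ℕ) : ℝ) / n))) / 2 *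
        (β (arc brk k (((i + 1 : ℕ) : ℝ) / n)) - β (arc brk k ((i : ℝ) / n)))) atTop
      (𝓝 (∫ t in (brk k.castSucc)..(brk k.succ), α t * β' t)) := by
    intro k
    exact one_arc (brk k.castSucc) (brk k.succ) (hmono Fin.castSucc_lt_succ) α β β' hα hβ hβ'
      (fun n i => arc brk k ((i : ℝ) / n)) (fun n i => by simp only [arc])
  have hsum := tendsto_finsetSum (Finset.univ : Finset (Fin m)) fun k _ => hk k
  have hlim : ∑ k : Fin m, ∫ t in (brk k.castSucc)..(brk k.succ), α t * β' t =
      ∫ t in (0 : ℝ)..(2 * Real.pi), α t * β' t := by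
    have h2 := fin_telescope (fun k : Fin (m + 1) => ∫ t in (0 : ℝ)..(brk k), α t * β' t)
    rw [h1, h0, intervalIntegral.integral_same, sub_zero] at h2
    rw [← h2]
    refine Finset.sum_congr rfl fun k _ => ?_
    rw [intervalIntegral.integral_interval_sub_left (hf.intervalIntegrable _ _)
      (hf.intervalIntegrable _ _)]
  rw [hlim] at hsum
  refine hsum.congr' ?_
  filter_upwards [eventually_gt_atTop 0] with n hn
  rw [loopSum_eq brk α β (by rw [h1, h0, hα2]) (by rw [h1, h0, hβ2]) hn, Finset.sum_div]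
  refine Finset.sum_congr rfl fun k _ => ?_
  rw [Finset.sum_div]
  refine Finset.sum_congr rfl fun i _ => ?_
  ring

end Pool.Agent.N296.CAPFLX
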