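import Pool.Agent.N502.FR.Stm

/-!
# FR/TRN (helper296): truncated sets
-/

set_option autoImplicit false

open Finset

namespace Pool.Agent.N296.FRTRN

open Pool.Agent.N502.FR

theorem mem_trn {m : ℕ} {H : Finset ℕ} {h : ℕ} : h ∈ trn m H ↔
    h ∈ H ∧ h ≤ 2 ^ (m + 1) ∧ (H.filter (fun g => g ≤ h)).card ≤ 4 * m + 1 := by
  unfold trn
  rw [mem_filter]

theorem seg {m : ℕ} {H : Finset ℕ} {h f : ℕ} (hh : h ∈ H) (hf : f ∈ trn m H) (hhf : h ≤ f) :
    h ∈ trn m H := by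
  rw [mem_trn] at hf ⊢
  refine ⟨hh, hhf.trans hf.2.1, le_trans (card_le_card ?_) hf.2.2⟩
  intro g hg
  rw [mem_filter] at hg ⊢
  exact ⟨hg.1, hg.2.trans hhf⟩

/-- if a small element is missing then the truncated set is full -/
theorem full {m : ℕ} {H : Finset ℕ} {h : ℕ} (hh : h ∈ H \ trn m H) (hm : h ≤ 2 ^ (m + 1)) :
    4 * m + 1 ≤ (trn m H).card := by
  have hne : ((H \ trn m H).filter (fun g => g ≤ 2 ^ (m + 1))).Nonempty :=
    ⟨h, mem_filter.2 ⟨hh, hm⟩⟩
  obtain ⟨g0, h0, hmin⟩ : ∃ g0 ∈ (H \ trn m H).filter (fun g => g ≤ 2 ^ (m + 1)),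
      ∀ x ∈ (H \ trn m H).filter (fun g => g ≤ 2 ^ (m + 1)), g0 ≤ x :=
    ⟨_, min'_mem _ hne, fun x hx => min'_le _ _ hx⟩
  rw [mem_filter, mem_sdiff] at h0
  obtain ⟨⟨h1, h2⟩, h3⟩ := h0
  have h4 : 4 * m + 1 < (H.filter (fun g => g ≤ g0)).card := by
    by_contra hcon
    exact h2 (mem_trn.2 ⟨h1, h3, not_lt.1 hcon⟩)
  have h5 : (H.filter (fun g => g ≤ g0)).erase g0 ⊆ trn m H := by
    intro g hg
    rw [mem_erase, mem_filter] at hg
    by_contra hcon
    have h6 : g0 ≤ g :=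
      hmin g (mem_filter.2 ⟨mem_sdiff.2 ⟨hg.2.1, hcon⟩, hg.2.2.trans h3⟩)
    exact hg.1 (le_antisymm hg.2.2 h6)
  have h6 := card_le_card h5
  have h7 : g0 ∈ H.filter (fun g => g ≤ g0) := mem_filter.2 ⟨h1, le_rfl⟩
  have h8 := card_erase_of_mem h7
  omega

theorem main : S_TRN := by
  intro m H hm hH h1
  have one : 1 ∈ trn m H := by
    rw [mem_trn]
    refine ⟨h1, Nat.one_le_two_pow, ?_⟩
    have : H.filter (fun g => g ≤ 1) ⊆ {1} := by
      intro g hg
      rw [mem_filter] at hg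
      have := hH g hg.1
      rw [mem_singleton]
      omega
    have h2 := card_le_card this
    rw [card_singleton] at h2
    omega
  have sub : trn m H ⊆ H := filter_subset _ _
  have hne : (trn m H).Nonempty := ⟨1, one⟩
  have hcard : (trn m H).card ≤ 4 * m + 1 := by
    have h2 := mem_trn.1 ((trn m H).max'_mem hne)
    refine le_trans (card_le_card ?_) h2.2.2
    intro g hg
    rw [mem_filter]
    exact ⟨sub hg, le_max' _ _ hg⟩
  have hle : ∀ h ∈ trn m H, h ≤ 2 ^ (m + 1) := fun h hh => (mem_trn.1 hh).2.1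
  have hseg : ∀ h ∈ H, ∀ f ∈ trn m H, h ≤ f → h ∈ trn m H := fun h hh f hf hhf => seg hh hf hhf
  have hs1 : 1 ≤ (trn m H).sup id := Finset.le_sup (f := id) one
  have hs2 : (trn m H).sup id ≤ 2 ^ (m + 1) := Finset.sup_le hle
  have hp : (2 : ℝ) ^ (m + 1) = 2 * 2 ^ m := pow_succ' _ _
  have hs1' : (1 : ℝ) ≤ ((trn m H).sup id : ℕ) := by exact_mod_cast hs1
  have hs2' : (((trn m H).sup id : ℕ) : ℝ) ≤ 2 * 2 ^ m := by
    rw [← hp]
    exact_mod_cast hs2
  have h1p : (1 : ℝ) ≤ 2 ^ m := one_le_pow₀ (by norm_num)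
  refine ⟨one, sub, hcard, hle, hseg, ?_⟩
  by_cases hc : (trn m H).card = 4 * m + 1
  · have hr : rad m (trn m H) = (((trn m H).sup id : ℕ) : ℝ) / 2 := if_pos hc
    have hr2 : 2 * rad m (trn m H) = (((trn m H).sup id : ℕ) : ℝ) := by rw [hr]; ring
    refine ⟨by linarith, by linarith, ?_, Or.inl ⟨hc, ?_⟩⟩
    · intro h hh
      rw [hr2]
      by_contra hcon
      push Not at hcon
      have h2 : h ≤ (trn m H).sup id := by exact_mod_cast hcon
      obtain ⟨M, hM, hMe⟩ := exists_mem_eq_sup (trn m H) hne id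
      rw [mem_sdiff] at hh
      rw [hMe] at h2
      exact hh.2 (hseg h hh.1 M hM h2)
    · intro h hh
      rw [hr2]
      have : h ≤ (trn m H).sup id := Finset.le_sup (f := id) hh
      exact_mod_cast this
  · have hr : rad m (trn m H) = 2 ^ m := if_neg hc
    refine ⟨by rw [hr]; linarith, hr.le, ?_, Or.inr hr⟩
    intro h hh
    rw [hr, ← hp]
    by_contra hcon
    push Not at hcon
    have h2 : h ≤ 2 ^ (m + 1) := by exact_mod_cast hcon
    exact hc (le_antisymm hcard (full hh h2))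

end Pool.Agent.N296.FRTRN
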