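import Pool.Agent.N576.MX2.E

set_option autoImplicit false
set_option linter.all false

/-!
# The number of branches in terms of combed families

Subtask 10970 of helper576, by helper296: `N576.MX.K1`, `K2`, `K3` for a path instead of a run.
-/

namespace Pool.Agent.N296.MX2

open Pool.Agent.H499R2 Pool.Agent.TH880.MK Pool.Agent.N576.MK
open Pool.Agent.N576.MX (two_ext inc_of hs_four card_fibres)
open Pool.Agent.N576.MX2 (PFam PCmb PFTOTAL)

noncomputable section

lemma tk_prefix (Q : List Bool) {m n : ℕ} (h : m ≤ n) : Q.take m <+: Q.take n := by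
  have e : Q.take m = (Q.take n).take m := by rw [List.take_take, min_eq_left h]
  rw [e]
  exact List.take_prefix _ _

lemma tk_len {Q : List Bool} {m : ℕ} {b : Bool} (h : Q.take m ++ [b] <+: Q) : m < Q.length := by
  by_contra hcon
  push Not at hcon
  have h1 := h.length_le
  rw [List.take_of_length_le hcon, List.length_append, List.length_singleton] at h1
  omega

lemma tk_lt {Q : List Bool} {m n : ℕ} {b : Bool} (h : Q.take m ++ [b] <+: Q) (hmn : m < n) :
    Q.take m ++ [b] <+: Q.take n := by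
  have h1 := tk_len h
  refine List.prefix_of_prefix_length_le h (List.take_prefix _ _) ?_
  rw [List.length_append, List.length_take, List.length_take, List.length_singleton]
  omega

/-- levels along a path -/
lemma tk_lev (Q : List Bool) {m n : ℕ} (h : m ≤ n) (hn : n ≤ Q.length) :
    FF (Q.take m) + ((n : ℝ) - m) / 4 ≤ FF (Q.take n) := by
  have h1 := FF_len (tk_prefix Q h)
  rw [List.length_take, List.length_take, min_eq_left hn, min_eq_left (h.trans hn)] at h1
  linarith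

lemma tk_le (Q : List Bool) {m n : ℕ} (h : m ≤ n) : FF (Q.take m) ≤ FF (Q.take n) :=
  FF_mono (tk_prefix Q h)

/-- few positions in a window of levels -/
lemma tk_window (Q : List Bool) (T : Finset ℕ) (hT : ∀ m ∈ T, m ≤ Q.length) {x r : ℝ} (hr : 0 ≤ r)
    (h : ∀ m ∈ T, x ≤ FF (Q.take m) ∧ FF (Q.take m) ≤ x + r) : (T.card : ℝ) ≤ 4 * r + 1 := by
  rcases T.eq_empty_or_nonempty with h0 | hne
  · rw [h0]; simp; positivity
  obtain ⟨n0, hn0, hmin⟩ := Finset.exists_min_image T id hne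
  have hsub : T ⊆ Finset.Icc n0 (n0 + ⌊4 * r⌋₊) := by
    intro m hm
    have h1 := hmin m hm
    simp only [id] at h1
    rw [Finset.mem_Icc]
    refine ⟨h1, ?_⟩
    have h2 := tk_lev Q h1 (hT m hm)
    have h3 := (h m hm).2
    have h4 := (h n0 hn0).1
    have h5 : ((m - n0 : ℕ) : ℝ) ≤ 4 * r := by
      rw [Nat.cast_sub h1]; linarith
    have := Nat.le_floor h5
    omega
  have h1 := Finset.card_le_card hsub
  rw [Nat.card_Icc] at h1
  have h2 : T.card ≤ ⌊4 * r⌋₊ + 1 := by omega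
  have h3 : (T.card : ℝ) ≤ (⌊4 * r⌋₊ : ℝ) + 1 := by exact_mod_cast h2
  have h4 := Nat.floor_le (show 0 ≤ 4 * r by positivity)
  linarith

lemma pf_le {H : ℕ} {Q : List Bool} {S : Finset ℕ} {l φ : ℕ → List Bool} (F : PFam H Q S l φ) :
    ∀ m ∈ S, m ≤ Q.length := by
  intro m hm
  obtain ⟨d, -, h⟩ := F.off m hm
  exact (tk_len h).le

lemma pf_sub {H : ℕ} {Q : List Bool} {S T : Finset ℕ} {l φ : ℕ → List Bool} (F : PFam H Q S l φ)
    (h : T ⊆ S) : PFam H Q T l φ :=
  ⟨fun m hm => F.off m (h hm), fun m hm => F.s1 m (h hm), fun m hm => F.s2 m (h hm), fun m hm => F.ne m (h hm),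
    fun m hm => F.val m (h hm)⟩

/-- the gaps of the words relative to the end of the run -/
lemma pf_gap {H : ℕ} {Q : List Bool} {S : Finset ℕ} {l φ : ℕ → List Bool} (F : PFam H Q S l φ)
    {m : ℕ} (hm : m ∈ S) :
    Real.exp (-2 * FF (Q.take m)) ≤ FF (l m) - ell (desc root Q) (zz (l m)) ∧
      FF (l m) - ell (desc root Q) (zz (l m)) ≤ 81 * H * Real.exp (-2 * FF (Q.take m)) := by
  obtain ⟨d, h1, h2⟩ := F.off m hm
  exact gap_bounds h1 h2 (F.s1 m hm)

/-- if the differences are of the order of the levels of the run, there are few positions -/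
lemma pf_few {H ρ : ℕ} (hH : 1 ≤ H) (hs : (10 : ℝ) ^ 20 * ((4 * H : ℕ) : ℝ) ^ 20 ≤ 4 ^ ρ) {Q : List Bool}
    {S : Finset ℕ} {l φ : ℕ → List Bool} (F : PFam H Q S l φ) (Y' : Nd)
    (h : ∀ m ∈ S, Real.exp (-2 * FF (Q.take m)) / 2 ≤
        |ell (desc root Q) (zz (l m)) - ell Y' (zz (φ m))| ∧
      |ell (desc root Q) (zz (l m)) - ell Y' (zz (φ m))| ≤
        81 * ((4 * H : ℕ) : ℝ) * Real.exp (-2 * FF (Q.take m))) : (S.card : ℝ) ≤ 4 * (4 * ρ + 1) := by
  classical
  have hρ0 : (0 : ℝ) ≤ ρ := Nat.cast_nonneg ρ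
  rcases windows (fun m : ℕ => FF (Q.take m)) hρ0 4 S with ⟨o, ho, hch⟩ | ⟨T, hT, hcov⟩
  · exfalso
    refine no_chain (H := 4 * H) (by omega) hs (desc root Q) Y' (fun t => FF (Q.take (o t)))
      (fun t => zz (l (o t))) (fun t => zz (φ (o t))) (fun t => ?_) (fun t => ?_) (fun t => (h _ (ho t)).1)
      (fun t => (h _ (ho t)).2) hch
    · rw [nm_zz]; exact_mod_cast (F.s1 _ (ho t)).trans (by omega)
    · rw [nm_zz]; exact_mod_cast (F.s2 _ (ho t)).trans (by omega)
  · exact cover_windows S (fun m => FF (Q.take m)) T 4 hT (by positivity) hcov (fun μ => by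
      refine tk_window Q _ (fun m hm => pf_le F m (Finset.mem_filter.mp hm).1) hρ0 (x := μ) ?_
      intro m hm
      exact (Finset.mem_filter.mp hm).2)

/-- few positions with the same partner -/
lemma pf_fibre {H ρ : ℕ} (hH : 1 ≤ H) (hs : (10 : ℝ) ^ 20 * ((4 * H : ℕ) : ℝ) ^ 20 ≤ 4 ^ ρ) {Q : List Bool}
    {S : Finset ℕ} {l φ : ℕ → List Bool} (F : PFam H Q S l φ) (y : List Bool) (hy : ∀ m ∈ S, φ m = y) :
    (S.card : ℝ) ≤ 4 * (4 * ρ + 1) := by
  classical
  refine pf_few hH hs F (desc root y) (fun m hm => ?_)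
  have hmn : m < S.sup id + 1 := by
    have := Finset.le_sup (f := id) hm
    simp only [id] at this
    omega
  obtain ⟨g1, g2⟩ := pf_gap F hm
  have g3 := F_closed y y (inC_of_prefix (List.prefix_refl y))
  have g4 := dl_exp (List.prefix_refl y)
  have hv := F.val m hm
  rw [hy m hm] at hv ⊢
  obtain ⟨d0, o0, -⟩ := F.off m hm
  have g5 : FF (Q.take m) ≤ FF (l m) := FF_mono ((List.prefix_append _ _).trans o0)
  have g6 : Real.exp (-2 * FF y) ≤ Real.exp (-2 * FF (Q.take m)) := Real.exp_le_exp.2 (by linarith)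
  have hsz : (sz y : ℝ) ≤ H := by
    have := F.s2 m hm
    rw [hy m hm] at this
    exact_mod_cast this
  have hdl := dl_pos (valid_root.desc y)
  have E := Real.exp_pos (-2 * FF (Q.take m))
  have hH0 : (0 : ℝ) ≤ H := Nat.cast_nonneg _
  have g7 : 2 * dl (desc root y) * sz y ≤ 2 * (81 * Real.exp (-2 * FF (Q.take m))) * H := by
    apply mul_le_mul _ hsz (Nat.cast_nonneg _) (by positivity)
    linarith
  have e : ell (desc root Q) (zz (l m)) - ell (desc root y) (zz y) =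
      -((FF (l m) - ell (desc root Q) (zz (l m))) + (ell (desc root y) (zz y) - FF y)) := by
    rw [hv]; ring
  rw [e, abs_neg, abs_of_nonneg (by linarith [g3.2])]
  push_cast
  constructor
  · linarith [g3.2]
  · nlinarith [g3.1, g3.2]

/-- low levels: few positions -/
lemma pf_cone_low {H ρ : ℕ} (hH : 1 ≤ H) (hs : (10 : ℝ) ^ 20 * ((4 * H : ℕ) : ℝ) ^ 20 ≤ 4 ^ ρ) {Q : List Bool}
    {S : Finset ℕ} {l φ : ℕ → List Bool} (F : PFam H Q S l φ) (k : List Bool)
    (hk : ∀ m ∈ S, k <+: φ m ∧ FF (Q.take m) ≤ FF k) :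
    (S.card : ℝ) ≤ 4 * (4 * ρ + 1) := by
  classical
  refine pf_few hH hs F (desc root k) (fun m hm => ?_)
  have hmn : m < S.sup id + 1 := by
    have := Finset.le_sup (f := id) hm
    simp only [id] at this
    omega
  obtain ⟨g1, g2⟩ := pf_gap F hm
  have g3 := F_closed k (φ m) (inC_of_prefix (hk m hm).1)
  have g4 := dl_exp (List.prefix_refl k)
  have hv := F.val m hm
  have g5 := (hk m hm).2
  have g6 : Real.exp (-2 * FF k) ≤ Real.exp (-2 * FF (Q.take m)) := Real.exp_le_exp.2 (by linarith)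
  have hsz : (sz (φ m) : ℝ) ≤ H := by exact_mod_cast F.s2 m hm
  have hdl := dl_pos (valid_root.desc k)
  have E := Real.exp_pos (-2 * FF (Q.take m))
  have hH0 : (0 : ℝ) ≤ H := Nat.cast_nonneg _
  have g7 : 2 * dl (desc root k) * sz (φ m) ≤ 2 * (81 * Real.exp (-2 * FF (Q.take m))) * H := by
    apply mul_le_mul _ hsz (Nat.cast_nonneg _) (by positivity)
    linarith
  have e : ell (desc root Q) (zz (l m)) - ell (desc root k) (zz (φ m)) =
      -((FF (l m) - ell (desc root Q) (zz (l m))) +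
        (ell (desc root k) (zz (φ m)) - FF (φ m))) := by
    rw [hv]; ring
  rw [e, abs_neg, abs_of_nonneg (by linarith [g3.2])]
  push_cast
  constructor
  · linarith [g3.2]
  · nlinarith [g3.1, g3.2]

/-- three words -/
lemma pf_triple {H : ℕ} (hH : 1 ≤ H) {Q : List Bool} {S : Finset ℕ} {l φ : ℕ → List Bool}
    (F : PFam H Q S l φ) {k : List Bool} (irr : IR H k) (hk : ∀ m ∈ S, k <+: φ m ∧ FF k ≤ FF (Q.take m))
    {m1 m2 m3 : ℕ} (h1 : m1 ∈ S) (h2 : m2 ∈ S) (h3 : m3 ∈ S) (h12 : m1 < m2) (h23 : m2 < m3)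
    (i12 : Inc (φ m1) (φ m2)) (i23 : Inc (φ m2) (φ m3)) (i31 : Inc (φ m3) (φ m1)) :
    ∃ V : ℝ, Real.exp (-2 * FF (Q.take m1)) ≤ |V| ∧ |V| ≤ 324 * H ^ 3 * Real.exp (-2 * FF (Q.take m1)) ∧
      Tri H (φ m1) (φ m2) (φ m3) V := by
  have hH1 : (1 : ℝ) ≤ H := by exact_mod_cast hH
  have nd : ∀ {s t : List Bool}, s ≠ t → dt (zz s) (zz t) ≠ 0 := fun h h0 => h (dt_zero h0)
  -- the words
  obtain ⟨b1, o1, p1⟩ := F.off m1 h1
  obtain ⟨b2, o2, p2⟩ := F.off m2 h2
  obtain ⟨b3, o3, p3⟩ := F.off m3 h3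
  have d12 : Q.take m1 ++ [!b1] <+: l m2 := (tk_lt p1 h12).trans ((List.prefix_append _ _).trans o2)
  have d13 : Q.take m1 ++ [!b1] <+: l m3 := (tk_lt p1 (h12.trans h23)).trans ((List.prefix_append _ _).trans o3)
  have d23 : Q.take m2 ++ [!b2] <+: l m3 := (tk_lt p2 h23).trans ((List.prefix_append _ _).trans o3)
  have j12 : Inc (l m1) (l m2) := inc_of o1 d12
  have j13 : Inc (l m1) (l m3) := inc_of o1 d13
  have j23 : Inc (l m2) (l m3) := inc_of o2 d23
  have ne : ∀ {x y : List Bool}, Inc x y → x ≠ y := by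
    rintro x y h rfl
    exact h.1 (List.prefix_refl _)
  have n1 := nd (ne j23)
  have n2 := nd (ne j13).symm
  have n3 := nd (ne j12)
  have c1 := dt_H (F.s1 _ h2) (F.s1 _ h3)
  have c2 := dt_H (F.s1 _ h3) (F.s1 _ h1)
  have c3 := dt_H (F.s1 _ h1) (F.s1 _ h2)
  -- the relation of the words
  have rx : dt (zz (l m2)) (zz (l m3)) • zz (l m1) + dt (zz (l m3)) (zz (l m1)) • zz (l m2) +
      dt (zz (l m1)) (zz (l m2)) • zz (l m3) = 0 := by
    unfold dt
    apply Prod.ext
    · simp only [Prod.fst_add, Prod.smul_fst, smul_eq_mul, Prod.fst_zero]; ring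
    · simp only [Prod.snd_add, Prod.smul_snd, smul_eq_mul, Prod.snd_zero]; ring
  -- the relation of the partners
  have hgap : ∀ m ∈ S, m1 ≤ m → m < m3 + 1 → |FF (l m) - ell (desc root Q) (zz (l m))| ≤
      81 * H * Real.exp (-2 * FF (Q.take m1)) := by
    intro m hm hm1 hm3
    obtain ⟨g1, g2⟩ := pf_gap F hm
    have E := Real.exp_pos (-2 * FF (Q.take m))
    rw [abs_of_nonneg (by linarith)]
    refine g2.trans ?_
    apply mul_le_mul_of_nonneg_left _ (by positivity)
    exact Real.exp_le_exp.2 (by linarith [tk_le Q hm1])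
  have hdl := dl_lower k
  have ry := rel3 irr (desc root Q) (hk m1 h1).1 (hk m2 h2).1 (hk m3 h3).1 (F.s2 _ h1) (F.s2 _ h2)
    (F.s2 _ h3) (F.s1 _ h1) (F.s1 _ h2) (F.s1 _ h3) (F.val _ h1).symm (F.val _ h2).symm (F.val _ h3).symm
    (hgap m1 h1 le_rfl (by omega)) (hgap m2 h2 h12.le (by omega)) (hgap m3 h3 (by omega) (by omega)) (by
      have e1 : Real.exp (-2 * FF (Q.take m1)) ≤ Real.exp (-2 * FF k) :=
        Real.exp_le_exp.2 (by linarith [(hk m1 h1).2])
      have e2 : (0 : ℝ) ≤ H ^ 3 := by positivity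
      calc 3 * (H : ℝ) ^ 2 * (81 * H * Real.exp (-2 * FF (Q.take m1))) = H ^ 3 * (243 * Real.exp (-2 * FF (Q.take m1))) := by
            ring
        _ ≤ H ^ 3 * (14 * dl (desc root k)) := by
            apply mul_le_mul_of_nonneg_left _ e2
            have := Real.exp_pos (-2 * FF k)
            linarith
        _ = 14 * H ^ 3 * dl (desc root k) := by ring)
  have T1 := tri j12 j23 j13.symm (F.s1 _ h1) (F.s1 _ h2) (F.s1 _ h3) n1 n2 n3 c1 c2 c3 rx
  have T2 := tri i12 i23 i31 (F.s2 _ h1) (F.s2 _ h2) (F.s2 _ h3) n1 n2 n3 c1 c2 c3 ry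
  rw [F.val _ h1, F.val _ h2, F.val _ h3] at T2
  refine ⟨_, T1.2.1 (Q.take m1) b1 o1 d12, ?_, T2⟩
  exact T1.1 (Q.take m1) ((List.prefix_append _ _).trans o1) ((List.prefix_append _ _).trans d12)
    ((List.prefix_append _ _).trans d13)

/-- an antichain of partners below an irrational cone is combed up to few positions -/
lemma pf_anti {H ρ : ℕ} (hH : 1 ≤ H) (hs : (10 : ℝ) ^ 20 * ((4 * H : ℕ) : ℝ) ^ 20 ≤ 4 ^ ρ) {Q : List Bool}
    {S : Finset ℕ} {l φ : ℕ → List Bool} (F : PFam H Q S l φ) {k : List Bool} (irr : IR H k)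
    (hk : ∀ m ∈ S, k <+: φ m ∧ FF k ≤ FF (Q.take m)) (hinc : ∀ m ∈ S, ∀ n ∈ S, m ≠ n → Inc (φ m) (φ n))
    {B1 : ℝ} (hB : ∀ T ⊆ S, PCmb ρ Q T φ → (T.card : ℝ) ≤ B1) : (S.card : ℝ) ≤ B1 + (4 * ρ + 1) + 3 := by
  classical
  have hρ0 : (0 : ℝ) ≤ ρ := Nat.cast_nonneg ρ
  have hB0 : 0 ≤ B1 := by
    have := hB ∅ (by simp) ⟨[], by simp⟩
    simpa using this
  have hr := exp_rho' (hs_four hs) hH
  have hH1 : (1 : ℝ) ≤ H := by exact_mod_cast hH
  rcases S.eq_empty_or_nonempty with h0 | ne1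
  · rw [h0]; simp only [Finset.card_empty, Nat.cast_zero]; linarith
  obtain ⟨a3, ha3, hmax3⟩ := Finset.exists_max_image S id ne1
  set S1 := S.erase a3 with hS1
  have c1 : S.card = S1.card + 1 := (Finset.card_erase_add_one ha3).symm
  rcases S1.eq_empty_or_nonempty with h0 | ne2
  · rw [c1, h0]; simp only [Finset.card_empty]; push_cast; linarith
  obtain ⟨a2, ha2, hmax2⟩ := Finset.exists_max_image S1 id ne2
  set S2 := S1.erase a2 with hS2
  have c2 : S1.card = S2.card + 1 := (Finset.card_erase_add_one ha2).symm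
  rcases S2.eq_empty_or_nonempty with h0 | ne3
  · rw [c1, c2, h0]; simp only [Finset.card_empty]; push_cast; linarith
  obtain ⟨a1, ha1, hmax1⟩ := Finset.exists_max_image S2 id ne3
  set S3 := S2.erase a1 with hS3
  have c3 : S2.card = S3.card + 1 := (Finset.card_erase_add_one ha1).symm
  have sub1 : ∀ m ∈ S1, m ∈ S ∧ m < a3 := by
    intro m hm
    have h1 := Finset.mem_erase.mp hm
    have h2 := hmax3 m h1.2
    simp only [id] at h2
    exact ⟨h1.2, lt_of_le_of_ne h2 h1.1⟩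
  have sub2 : ∀ m ∈ S2, m ∈ S1 ∧ m < a2 := by
    intro m hm
    have h1 := Finset.mem_erase.mp hm
    have h2 := hmax2 m h1.2
    simp only [id] at h2
    exact ⟨h1.2, lt_of_le_of_ne h2 h1.1⟩
  have sub3 : ∀ m ∈ S3, m ∈ S2 ∧ m < a1 := by
    intro m hm
    have h1 := Finset.mem_erase.mp hm
    have h2 := hmax1 m h1.2
    simp only [id] at h2
    exact ⟨h1.2, lt_of_le_of_ne h2 h1.1⟩
  have A2 := sub1 a2 ha2
  have A1 := sub2 a1 ha1
  have A1S := (sub1 a1 A1.1).1
  -- the top triple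
  obtain ⟨N2, d2, e1, e2⟩ := diverge (φ a2) (φ a3) (hinc _ A2.1 _ ha3 (by omega)).1 (hinc _ ha3 _ A2.1 (by omega)).1
  have hlog : ∀ F0 G0 : ℝ, Real.exp (-2 * F0) ≤ 324 * H ^ 3 * Real.exp (-2 * G0) → G0 - ρ / 2 < F0 := by
    intro F0 G0 h
    have h0 := Real.exp_pos (-2 * G0)
    have h1 : 324 * (H : ℝ) ^ 3 * Real.exp (-2 * G0) < Real.exp ρ * Real.exp (-2 * G0) := by
      apply mul_lt_mul_of_pos_right _ h0
      have : (0 : ℝ) < H ^ 3 := by positivity
      linarith
    rw [← Real.exp_add] at h1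
    have h2 := Real.exp_lt_exp.1 (h.trans_lt h1)
    linarith
  have top : FF (Q.take a1) - ρ / 2 < FF N2 := by
    obtain ⟨V, v1, v2, v3⟩ := pf_triple hH F irr hk A1S A2.1 ha3 A1.2 A2.2 (hinc _ A1S _ A2.1 (by omega))
      (hinc _ A2.1 _ ha3 (by omega)) (hinc _ ha3 _ A1S (by omega))
    exact hlog _ _ ((v3.2.2.1 N2 d2 e1 e2).trans v2)
  -- the combed part
  set T := S3.filter (fun m => FF (Q.take m) + ρ ≤ FF (Q.take a1)) with hT
  have hTc : PCmb ρ Q T φ := by
    refine ⟨φ a3, fun m hm => ?_⟩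
    obtain ⟨hm3, hlv⟩ := Finset.mem_filter.mp hm
    have q3 := sub3 m hm3
    have q2 := sub2 m q3.1
    have q1 := sub1 m q2.1
    obtain ⟨N, d, f1, f2⟩ := diverge (φ m) (φ a3) (hinc _ q1.1 _ ha3 (by omega)).1 (hinc _ ha3 _ q1.1 (by omega)).1
    refine ⟨N, d, f1, f2, ?_⟩
    obtain ⟨V, v1, v2, v3⟩ := pf_triple hH F irr hk q1.1 A2.1 ha3 q2.2 A2.2 (hinc _ q1.1 _ A2.1 (by omega))
      (hinc _ A2.1 _ ha3 (by omega)) (hinc _ ha3 _ q1.1 (by omega))
    have lo := hlog _ _ ((v3.2.2.2 N (!d) f2 (by rw [Bool.not_not]; exact f1)).trans v2)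
    have up : FF N < FF (Q.take m) + ρ / 2 := by
      by_contra hcon
      push Not at hcon
      have key : ∀ T0 : List Bool, T0 <+: N → T0 <+: N2 → FF (Q.take m) + ρ / 2 ≤ FF T0 → False := by
        intro T0 t1 t2 t3
        have h1 := v3.1 T0 (t1.trans ((List.prefix_append _ _).trans f1)) (t2.trans ((List.prefix_append _ _).trans e1))
          (t1.trans ((List.prefix_append _ _).trans f2))
        have h2 := hlog _ _ (v1.trans h1)
        linarith
      rcases le_total N.length N2.length with h | h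
      · exact key N (List.prefix_refl _) (List.prefix_of_prefix_length_le ((List.prefix_append _ _).trans f2)
          ((List.prefix_append _ _).trans e2) h) hcon
      · exact key N2 (List.prefix_of_prefix_length_le ((List.prefix_append _ _).trans e2)
          ((List.prefix_append _ _).trans f2) h) (List.prefix_refl _) (by linarith)
    rw [abs_le]; constructor <;> linarith
  have hTS : T ⊆ S := fun m hm => (sub1 m (sub2 m (sub3 m (Finset.mem_filter.mp hm).1).1).1).1
  have hTB := hB T hTS hTc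
  have hR : (((S3.filter (fun m => ¬ FF (Q.take m) + ρ ≤ FF (Q.take a1))).card : ℕ) : ℝ) ≤ 4 * ρ + 1 := by
    refine tk_window Q _ (fun m hm => pf_le F m (sub1 m (sub2 m (sub3 m (Finset.mem_filter.mp hm).1).1).1).1)
      hρ0 (x := FF (Q.take a1) - ρ) ?_
    intro m hm
    obtain ⟨hm3, hlv⟩ := Finset.mem_filter.mp hm
    have q3 := sub3 m hm3
    have := tk_le Q q3.2.le
    constructor <;> linarith
  have hcard : S3.card = T.card + (S3.filter (fun m => ¬ FF (Q.take m) + ρ ≤ FF (Q.take a1))).card := by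
    rw [hT]; exact (Finset.card_filter_add_card_filter_not (s := S3) _).symm
  have e : (S.card : ℝ) = (T.card : ℝ) + ((S3.filter (fun m => ¬ FF (Q.take m) + ρ ≤ FF (Q.take a1))).card : ℕ) + 3 := by
    rw [c1, c2, c3, hcard]; push_cast; ring
  rw [e]
  linarith

/-- partners below one irrational cone -/
lemma pf_cone {H ρ : ℕ} (hH : 1 ≤ H) (hs : (10 : ℝ) ^ 20 * ((4 * H : ℕ) : ℝ) ^ 20 ≤ 4 ^ ρ) {L : ℝ} (hL : ChL H L)
    {Q : List Bool} {S : Finset ℕ} {l φ : ℕ → List Bool} (F : PFam H Q S l φ) {k : List Bool}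
    (irr : IR H k) (hk : ∀ m ∈ S, k <+: φ m) {B1 : ℝ} (hB : ∀ T ⊆ S, PCmb ρ Q T φ → (T.card : ℝ) ≤ B1) :
    (S.card : ℝ) ≤ 4 * (4 * ρ + 1) * ((L + 1) * (B1 + (4 * ρ + 1) + 3) + 1) := by
  classical
  have hρ0 : (0 : ℝ) ≤ ρ := Nat.cast_nonneg ρ
  have hL0 : 0 ≤ L := by
    have := hL ∅ (by simp) (by simp)
    simpa using this
  have hB0 : 0 ≤ B1 := by
    have := hB ∅ (by simp) ⟨[], by simp⟩
    simpa using this
  set Sl := S.filter (fun m => FF (Q.take m) ≤ FF k) with hSl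
  set Sh := S.filter (fun m => ¬ FF (Q.take m) ≤ FF k) with hSh
  have cl : (Sl.card : ℝ) ≤ 4 * (4 * ρ + 1) :=
    pf_cone_low hH hs (pf_sub F (Finset.filter_subset _ _)) k (fun m hm => by
      have h := Finset.mem_filter.mp hm
      exact ⟨hk m h.1, h.2⟩)
  have hShS : Sh ⊆ S := Finset.filter_subset _ _
  have FSh := pf_sub F hShS
  have ch : (Sh.card : ℝ) ≤ 4 * (4 * ρ + 1) * ((L + 1) * (B1 + (4 * ρ + 1) + 3)) := by
    apply card_fibres Sh φ (by positivity)
    · intro y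
      refine pf_fibre hH hs (pf_sub FSh (Finset.filter_subset _ _)) y (fun m hm => (Finset.mem_filter.mp hm).2)
    · apply antichains hL
      · intro y hy
        obtain ⟨m, hm, rfl⟩ := Finset.mem_image.mp hy
        exact ⟨⟨l m, (FSh.ne m hm).symm, (FSh.val m hm).symm⟩, FSh.s2 m hm⟩
      · intro V hV hanti
        have hch : ∀ y ∈ V, ∃ m ∈ Sh, φ m = y := fun y hy => Finset.mem_image.mp (hV hy)
        choose! μ hμ1 hμ2 using hch
        set T := V.image μ with hT
        have hTS : T ⊆ Sh := by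
          intro m hm
          obtain ⟨y, hy, rfl⟩ := Finset.mem_image.mp hm
          exact hμ1 y hy
        have hcard : T.card = V.card := by
          apply Finset.card_image_of_injOn
          intro y hy y' hy' h
          rw [← hμ2 y hy, ← hμ2 y' hy', h]
        rw [← hcard]
        refine pf_anti hH hs (pf_sub FSh hTS) irr (k := k) (fun m hm => ?_) (fun m hm n hn hmn => ?_) (fun T' hT' hc => ?_)
        · have h := Finset.mem_filter.mp (hTS hm)
          exact ⟨hk m h.1, (not_le.mp h.2).le⟩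
        · obtain ⟨y, hy, rfl⟩ := Finset.mem_image.mp hm
          obtain ⟨y', hy', rfl⟩ := Finset.mem_image.mp hn
          rw [hμ2 y hy, hμ2 y' hy']
          have hne : y ≠ y' := fun h => hmn (by rw [h])
          exact ⟨fun h => hne (hanti y hy y' hy' h), fun h => hne (hanti y' hy' y hy h).symm⟩
        · exact hB T' (hT'.trans (hTS.trans hShS)) hc
  have hcard : S.card = Sl.card + Sh.card := (Finset.card_filter_add_card_filter_not (s := S) _).symm
  have e : (S.card : ℝ) = (Sl.card : ℝ) + Sh.card := by rw [hcard]; push_cast; ring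
  rw [e]
  have e2 : 4 * (4 * (ρ : ℝ) + 1) * ((L + 1) * (B1 + (4 * ρ + 1) + 3) + 1) =
      4 * (4 * (ρ : ℝ) + 1) + 4 * (4 * ρ + 1) * ((L + 1) * (B1 + (4 * ρ + 1) + 3)) := by ring
  rw [e2]
  linarith

/-- partners whose pieces hang off one path -/
lemma pf_path {H ρ : ℕ} (hH : 1 ≤ H) (hs : (10 : ℝ) ^ 20 * ((4 * H : ℕ) : ℝ) ^ 20 ≤ 4 ^ ρ) {L : ℝ} (hL : ChL H L)
    {Q : List Bool} {S : Finset ℕ} {l φ : ℕ → List Bool} (F : PFam H Q S l φ) {P' : List Bool}
    (κ : ℕ → List Bool) (hκ : ∀ m ∈ S, κ m ∈ PN H ρ ∧ κ m <+: φ m ∧ Hg P' (κ m)) {B1 : ℝ}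
    (hB : ∀ T ⊆ S, PCmb ρ Q T φ → (T.card : ℝ) ≤ B1) :
    (S.card : ℝ) ≤ 4 * (4 * ρ + 1) + B1 +
      4 * ((4 * ρ + 1) * (4 * (4 * ρ + 1) * ((L + 1) * (B1 + (4 * ρ + 1) + 3) + 1))) := by
  classical
  have hρ0 : (0 : ℝ) ≤ ρ := Nat.cast_nonneg ρ
  have hs1 := hs_four hs
  have hH1 : (1 : ℝ) ≤ H := by exact_mod_cast hH
  have hL0 : 0 ≤ L := by
    have := hL ∅ (by simp) (by simp)
    simpa using this
  have hB0 : 0 ≤ B1 := by
    have := hB ∅ (by simp) ⟨[], by simp⟩
    simpa using this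
  obtain ⟨n, hn⟩ : ∃ n, n = S.sup id + 1 := ⟨_, rfl⟩
  have hmn : ∀ m ∈ S, m < n := by
    intro m hm
    have := Finset.le_sup (f := id) hm
    simp only [id] at this
    omega
  -- the differences
  have hD : ∀ m ∈ S, (ρ : ℝ) < |FF (Q.take m) - FF (κ m).dropLast| →
      Real.exp (-2 * min (FF (Q.take m)) (FF (κ m).dropLast)) / 2 ≤
        |ell (desc root Q) (zz (l m)) - ell (desc root P') (zz (φ m))| ∧
      |ell (desc root Q) (zz (l m)) - ell (desc root P') (zz (φ m))| ≤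
        81 * H * Real.exp (-2 * min (FF (Q.take m)) (FF (κ m).dropLast)) := by
    intro m hm hlt
    obtain ⟨g1, g2⟩ := pf_gap F hm
    obtain ⟨g3, g4⟩ := gap_hg (hκ m hm).2.2 (hκ m hm).2.1 (F.s2 m hm)
    have g5 := two_gaps hs1 hH g1 g2 g3 g4 hlt
    have e : ell (desc root Q) (zz (l m)) - ell (desc root P') (zz (φ m)) =
        -((FF (l m) - ell (desc root Q) (zz (l m))) - (FF (φ m) - ell (desc root P') (zz (φ m)))) := by
      rw [F.val m hm]; ring
    rw [e, abs_neg]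
    exact g5
  have h4 : ∀ a : ℝ, 81 * (H : ℝ) * Real.exp a ≤ 81 * ((4 * H : ℕ) : ℝ) * Real.exp a := by
    intro a
    have := Real.exp_pos a
    push_cast
    nlinarith [mul_nonneg (show (0 : ℝ) ≤ H by linarith) this.le]
  set Sp := S.filter (fun m => FF (Q.take m) + ρ < FF (κ m).dropLast) with hSp
  set Sq := S.filter (fun m => ¬ FF (Q.take m) + ρ < FF (κ m).dropLast) with hSq
  set Sm := Sq.filter (fun m => FF (κ m).dropLast + ρ < FF (Q.take m)) with hSm
  set So := Sq.filter (fun m => ¬ FF (κ m).dropLast + ρ < FF (Q.take m)) with hSo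
  have cp : (Sp.card : ℝ) ≤ 4 * (4 * ρ + 1) := by
    refine pf_few hH hs (pf_sub F (Finset.filter_subset _ _)) (desc root P') (fun m hm => ?_)
    obtain ⟨h1, h2⟩ := Finset.mem_filter.mp hm
    have h3 := hD m h1 (by rw [abs_of_nonpos (by linarith)]; linarith)
    rw [min_eq_left (by linarith)] at h3
    exact ⟨h3.1, h3.2.trans (h4 _)⟩
  have co : (So.card : ℝ) ≤ B1 := by
    apply hB So ((Finset.filter_subset _ _).trans (Finset.filter_subset _ _))
    refine ⟨P', fun m hm => ?_⟩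
    obtain ⟨h1, h2⟩ := Finset.mem_filter.mp hm
    obtain ⟨h5, h6⟩ := Finset.mem_filter.mp h1
    obtain ⟨h7, h8, h9⟩ := hκ m h5
    obtain ⟨R, b, e1, e2⟩ := h9
    have e3 : (κ m).dropLast = R := by rw [e1, List.dropLast_concat]
    rw [e3] at h2 h6
    refine ⟨R, b, by rw [← e1]; exact h8, e2, ?_⟩
    push Not at h2 h6
    rw [abs_le]; constructor <;> linarith
  have cm : (Sm.card : ℝ) ≤ 4 * ((4 * ρ + 1) * (4 * (4 * ρ + 1) * ((L + 1) * (B1 + (4 * ρ + 1) + 3) + 1))) := by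
    have hm : ∀ m ∈ Sm, m ∈ S ∧ FF (κ m).dropLast + ρ < FF (Q.take m) := fun m hm =>
      ⟨(Finset.mem_filter.mp (Finset.mem_filter.mp hm).1).1, (Finset.mem_filter.mp hm).2⟩
    rcases windows (fun m : ℕ => FF (κ m).dropLast) hρ0 4 Sm with ⟨o, ho, hch⟩ | ⟨T, hT, hcov⟩
    · exfalso
      refine no_chain (H := 4 * H) (by omega) hs (desc root Q) (desc root P')
        (fun t => FF (κ (o t)).dropLast) (fun t => zz (l (o t))) (fun t => zz (φ (o t))) (fun t => ?_) (fun t => ?_)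
        (fun t => ?_) (fun t => ?_) hch
      · rw [nm_zz]; exact_mod_cast (F.s1 _ (hm _ (ho t)).1).trans (by omega)
      · rw [nm_zz]; exact_mod_cast (F.s2 _ (hm _ (ho t)).1).trans (by omega)
      · obtain ⟨h1, h2⟩ := hm _ (ho t)
        have h3 := hD _ h1 (by rw [abs_of_nonneg (by linarith)]; linarith)
        rw [min_eq_right (by linarith)] at h3
        exact h3.1
      · obtain ⟨h1, h2⟩ := hm _ (ho t)
        have h3 := hD _ h1 (by rw [abs_of_nonneg (by linarith)]; linarith)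
        rw [min_eq_right (by linarith)] at h3
        exact h3.2.trans (h4 _)
    · refine cover_windows Sm (fun m => FF (κ m).dropLast) T 4 hT (by positivity) hcov (fun μ => ?_)
      set U := Sm.filter (fun m => μ ≤ FF (κ m).dropLast ∧ FF (κ m).dropLast ≤ μ + ρ) with hU
      have hUm : ∀ m ∈ U, m ∈ S ∧ μ ≤ FF (κ m).dropLast ∧ FF (κ m).dropLast ≤ μ + ρ := fun m h =>
        ⟨(hm m (Finset.mem_filter.mp h).1).1, (Finset.mem_filter.mp h).2⟩
      rw [mul_comm (4 * (ρ : ℝ) + 1)]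
      apply card_fibres U κ (by positivity)
      · intro y
        rcases (U.filter (fun m => κ m = y)).eq_empty_or_nonempty with h0 | ⟨m0, hm0⟩
        · rw [h0]; simp only [Finset.card_empty, Nat.cast_zero]; positivity
        · have hsubU : U.filter (fun m => κ m = y) ⊆ S := fun m h => (hUm m (Finset.mem_filter.mp h).1).1
          have h0 := Finset.mem_filter.mp hm0
          have hpn := (hκ m0 (hsubU hm0)).1
          rw [h0.2] at hpn
          refine pf_cone hH hs hL (pf_sub F hsubU) (mem_PN.mp hpn).2.1.2 (fun m h => ?_) (fun T' hT' hc => hB T' (hT'.trans hsubU) hc)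
          have h5 := Finset.mem_filter.mp h
          rw [← h5.2]
          exact (hκ m (hUm m h5.1).1).2.1
      · refine le_trans ?_ (hang_window (PN H ρ) P' hρ0 μ)
        have : U.image κ ⊆ ((PN H ρ).filter (Hg P')).filter fun k => μ ≤ FF k.dropLast ∧ FF k.dropLast ≤ μ + ρ := by
          intro k hk
          obtain ⟨m, hmU, rfl⟩ := Finset.mem_image.mp hk
          have h := hUm m hmU
          have h2 := hκ m h.1
          rw [Finset.mem_filter, Finset.mem_filter]
          exact ⟨⟨h2.1, h2.2.2⟩, h.2⟩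
        exact_mod_cast Finset.card_le_card this
  have hcard : S.card = Sp.card + (Sm.card + So.card) := by
    rw [hSp, hSm, hSo, Finset.card_filter_add_card_filter_not, hSq, Finset.card_filter_add_card_filter_not]
  have e : (S.card : ℝ) = (Sp.card : ℝ) + (Sm.card + So.card) := by rw [hcard]; push_cast; ring
  rw [e]
  linarith

/-- **The number of positions in terms of combed families.** -/
theorem pf_total {H ρ : ℕ} (hH : 1 ≤ H) (hρ : 2 ≤ ρ) (hs : (10 : ℝ) ^ 20 * ((4 * H : ℕ) : ℝ) ^ 20 ≤ 4 ^ ρ) {L : ℝ}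
    (hL : ChL H L) {Q : List Bool} {S : Finset ℕ} {l φ : ℕ → List Bool} (F : PFam H Q S l φ) {B1 : ℝ}
    (hB : ∀ T ⊆ S, PCmb ρ Q T φ → (T.card : ℝ) ≤ B1) :
    (S.card : ℝ) ≤ 4 * (4 * ρ + 1) * ((10 * ρ ^ 2 + 4) * L) + (19 * ρ ^ 2 + 6) * (4 * (4 * ρ + 1) + B1 +
      4 * ((4 * ρ + 1) * (4 * (4 * ρ + 1) * ((L + 1) * (B1 + (4 * ρ + 1) + 3) + 1)))) := by
  classical
  have hρ0 : (0 : ℝ) ≤ ρ := Nat.cast_nonneg ρ
  have hs1 := hs_four hs
  have hL0 : 0 ≤ L := by
    have := hL ∅ (by simp) (by simp)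
    simpa using this
  have hB0 : 0 ≤ B1 := by
    have := hB ∅ (by simp) ⟨[], by simp⟩
    simpa using this
  set Sb := S.filter (fun m => φ m ∈ BW H ρ) with hSb
  set Sg := S.filter (fun m => ¬ φ m ∈ BW H ρ) with hSg
  have cb : (Sb.card : ℝ) ≤ 4 * (4 * ρ + 1) * ((10 * ρ ^ 2 + 4) * L) := by
    apply card_fibres Sb φ (by positivity)
    · intro y
      refine pf_fibre hH hs (pf_sub (pf_sub F (Finset.filter_subset _ _)) (Finset.filter_subset _ _)) y
        (fun m hm => (Finset.mem_filter.mp hm).2)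
    · refine le_trans ?_ (BWx_card hρ hH hs1 hL)
      have : Sb.image φ ⊆ (BW H ρ).filter Exw := by
        intro y hy
        obtain ⟨m, hm, rfl⟩ := Finset.mem_image.mp hy
        have h := Finset.mem_filter.mp hm
        exact Finset.mem_filter.mpr ⟨h.2, l m, (F.ne m h.1).symm, (F.val m h.1).symm⟩
      exact_mod_cast Finset.card_le_card this
  have cg : (Sg.card : ℝ) ≤ (19 * ρ ^ 2 + 6) * (4 * (4 * ρ + 1) + B1 +
      4 * ((4 * ρ + 1) * (4 * (4 * ρ + 1) * ((L + 1) * (B1 + (4 * ρ + 1) + 3) + 1)))) := by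
    have hSgS : Sg ⊆ S := Finset.filter_subset _ _
    have hK : ∀ m ∈ Sg, ∃ k, k ∈ PN H ρ ∧ k <+: φ m := by
      intro m hm
      have h := Finset.mem_filter.mp hm
      by_contra hno
      exact h.2 (mem_BW.mpr ⟨F.s2 m h.1, hno⟩)
    choose! κ hκ1 hκ2 using hK
    have hPth : ∀ k, k ∈ PN H ρ → ∃ P ∈ Paths H ρ, Hg P k := fun k hk => PN_cover hρ hH hs1 hk
    choose! Pt hPt1 hPt2 using hPth
    rw [mul_comm]
    apply card_fibres Sg (fun m => Pt (κ m)) (by positivity)
    · intro P'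
      have hsub : Sg.filter (fun m => Pt (κ m) = P') ⊆ S := (Finset.filter_subset _ _).trans hSgS
      refine pf_path hH hs hL (pf_sub F hsub) κ (P' := P') (fun m hm => ?_) (fun T' hT' hc => hB T' (hT'.trans hsub) hc)
      have h := Finset.mem_filter.mp hm
      refine ⟨hκ1 m h.1, hκ2 m h.1, ?_⟩
      rw [← h.2]
      exact hPt2 _ (hκ1 m h.1)
    · have h1 : Sg.image (fun m => Pt (κ m)) ⊆ Paths H ρ := by
        intro P hP
        obtain ⟨m, hm, rfl⟩ := Finset.mem_image.mp hP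
        exact hPt1 _ (hκ1 m hm)
      have h2 := (Finset.card_le_card h1).trans (Paths_card hρ hH hs1)
      exact_mod_cast h2
  have hcard : S.card = Sb.card + Sg.card := (Finset.card_filter_add_card_filter_not (s := S) _).symm
  have e : (S.card : ℝ) = (Sb.card : ℝ) + Sg.card := by rw [hcard]; push_cast; ring
  rw [e]
  linarith

theorem pftotal : PFTOTAL := by
  intro H ρ hH hρ hs L hL P S l φ F B1 hB
  exact pf_total hH hρ hs hL F hB

end

end Pool.Agent.N296.MX2
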