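import Pool.Agent.N502.TM.Stm

/-! # Project TM, part ABL: comparison of sums and integrals for antitone functions -/

set_option autoImplicit false

namespace Pool.Agent.N296.TMABL

open MeasureTheory Set Filter Topology
open scoped ENNReal Real
open Pool.Agent.N502.TM

theorem uu_nonneg (k : ℕ) : 0 ≤ uu k := by unfold uu; positivity

/-- the intervals -/
def II (τ : ℝ) (k : ℕ) : Set ℝ := Ioc ((k : ℝ) * τ) (((k : ℝ) + 1) * τ)

theorem II_meas (τ : ℝ) (k : ℕ) : MeasurableSet (II τ k) := measurableSet_Ioc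

theorem II_disj {τ : ℝ} (hτ : 0 < τ) : Pairwise (Function.onFun Disjoint (II τ)) := by
  intro i j hij
  rw [Function.onFun, Set.disjoint_left]
  intro x hx hy
  rcases lt_or_gt_of_ne hij with h | h
  · have h1 : ((i : ℝ) + 1) ≤ j := by exact_mod_cast h
    have h2 := hx.2
    have h3 := hy.1
    have h4 : ((i : ℝ) + 1) * τ ≤ j * τ := mul_le_mul_of_nonneg_right h1 hτ.le
    linarith
  · have h1 : ((j : ℝ) + 1) ≤ i := by exact_mod_cast h
    have h2 := hy.2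
    have h3 := hx.1
    have h4 : ((j : ℝ) + 1) * τ ≤ i * τ := mul_le_mul_of_nonneg_right h1 hτ.le
    linarith

theorem II_union {τ : ℝ} (hτ : 0 < τ) : ⋃ k, II τ k = Ioi 0 := by
  ext x
  rw [mem_iUnion, mem_Ioi]
  constructor
  · rintro ⟨k, hk⟩
    have : 0 ≤ (k : ℝ) * τ := by positivity
    exact lt_of_le_of_lt this hk.1
  · intro hx
    have hq : 0 < x / τ := div_pos hx hτ
    have hc : 0 < ⌈x / τ⌉₊ := Nat.ceil_pos.2 hq
    refine ⟨⌈x / τ⌉₊ - 1, ?_, ?_⟩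
    · have h1 : ((⌈x / τ⌉₊ - 1 : ℕ) : ℝ) < x / τ := by
        rw [← Nat.lt_ceil]
        omega
      rwa [lt_div_iff₀ hτ] at h1
    · have h1 : x / τ ≤ ((⌈x / τ⌉₊ - 1 : ℕ) : ℝ) + 1 := by
        have h2 : ((⌈x / τ⌉₊ - 1 : ℕ) : ℝ) + 1 = (⌈x / τ⌉₊ : ℝ) := by
          have : ⌈x / τ⌉₊ - 1 + 1 = ⌈x / τ⌉₊ := by omega
          exact_mod_cast this
        rw [h2]
        exact Nat.le_ceil _
      rwa [div_le_iff₀ hτ] at h1

theorem lint {τ : ℝ} (hτ : 0 < τ) (F : ℝ → ℝ≥0∞) :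
    ∫⁻ s in Ioi (0 : ℝ), F s = ∑' k, ∫⁻ s in II τ k, F s := by
  rw [← II_union hτ]
  exact lintegral_iUnion (II_meas τ) (II_disj hτ) F

theorem up (l τ : ℝ) (Φ : ℝ → ℝ≥0∞) (hl : IsL l) (hτ : 0 < τ) (hΦ : AntitoneOn Φ (Ici 0)) :
    ∑' k : ℕ, ENNReal.ofReal (√τ * uu (k + 1)) * Φ (((k : ℝ) + 1) * τ) ≤
      ENNReal.ofReal l * ∫⁻ s in Ioi (0 : ℝ), ENNReal.ofReal (s ^ (-(1 / 2) : ℝ)) * Φ s := by
  rw [lint hτ, ← ENNReal.tsum_mul_left]
  refine ENNReal.tsum_le_tsum fun k => ?_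
  have hk1 : (0 : ℝ) < (k : ℝ) + 1 := by positivity
  have hb : 0 < ((k : ℝ) + 1) * τ := by positivity
  have h1 : ENNReal.ofReal ((((k : ℝ) + 1) * τ) ^ (-(1 / 2) : ℝ)) * Φ (((k : ℝ) + 1) * τ) *
      ENNReal.ofReal τ ≤ ∫⁻ s in II τ k, ENNReal.ofReal (s ^ (-(1 / 2) : ℝ)) * Φ s := by
    have h2 : ∫⁻ _s in II τ k, ENNReal.ofReal ((((k : ℝ) + 1) * τ) ^ (-(1 / 2) : ℝ)) *
        Φ (((k : ℝ) + 1) * τ) = ENNReal.ofReal ((((k : ℝ) + 1) * τ) ^ (-(1 / 2) : ℝ)) *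
        Φ (((k : ℝ) + 1) * τ) * ENNReal.ofReal τ := by
      rw [setLIntegral_const]
      unfold II
      rw [Real.volume_Ioc]
      congr 2
      ring
    rw [← h2]
    refine setLIntegral_mono' (II_meas τ k) fun s hs => ?_
    have hs0 : 0 < s := lt_of_le_of_lt (by positivity) hs.1
    refine mul_le_mul' (ENNReal.ofReal_le_ofReal ?_) (hΦ hs0.le hb.le hs.2)
    exact Real.rpow_le_rpow_of_nonpos hs0 hs.2 (by norm_num)
  refine le_trans ?_ (mul_le_mul_right h1 (ENNReal.ofReal l))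
  have h3 : √τ * uu (k + 1) ≤ l * ((((k : ℝ) + 1) * τ) ^ (-(1 / 2) : ℝ) * τ) := by
    have h4 := hl.up (k + 1) (by omega)
    have h5 : (((k : ℝ) + 1) * τ) ^ (-(1 / 2) : ℝ) = (√((k : ℝ) + 1))⁻¹ * (√τ)⁻¹ := by
      rw [Real.rpow_neg hb.le, ← Real.sqrt_eq_rpow, Real.sqrt_mul hk1.le, mul_inv]
    rw [h5]
    push_cast at h4
    have h6 : (√τ)⁻¹ * τ = √τ := by
      have : τ = √τ * √τ := (Real.mul_self_sqrt hτ.le).symm
      have hs : √τ ≠ 0 := (Real.sqrt_pos.2 hτ).ne'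
      nth_rewrite 2 [this]
      rw [← mul_assoc, inv_mul_cancel₀ hs, one_mul]
    calc √τ * uu (k + 1) ≤ √τ * (l / √((k : ℝ) + 1)) :=
          mul_le_mul_of_nonneg_left h4 (Real.sqrt_nonneg _)
      _ = l * ((√((k : ℝ) + 1))⁻¹ * ((√τ)⁻¹ * τ)) := by rw [h6, div_eq_mul_inv]; ring
      _ = _ := by ring
  calc ENNReal.ofReal (√τ * uu (k + 1)) * Φ (((k : ℝ) + 1) * τ)
      ≤ ENNReal.ofReal (l * ((((k : ℝ) + 1) * τ) ^ (-(1 / 2) : ℝ) * τ)) * Φ (((k : ℝ) + 1) * τ) :=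
        mul_le_mul_left (ENNReal.ofReal_le_ofReal h3) _
    _ = ENNReal.ofReal l * (ENNReal.ofReal ((((k : ℝ) + 1) * τ) ^ (-(1 / 2) : ℝ)) *
        Φ (((k : ℝ) + 1) * τ) * ENNReal.ofReal τ) := by
        rw [ENNReal.ofReal_mul hl.pos.le, ENNReal.ofReal_mul (Real.rpow_nonneg hb.le _)]
        ring

/-- discrete Abel inequality -/
theorem abel (w v : ℕ → ℝ) (hw : ∀ k, 0 ≤ w k) (hv : ∀ k, 0 ≤ v k)
    (h : ∀ N, ∑ j ∈ Finset.range N, w j ≤ ∑ j ∈ Finset.range N, v j) (P : ℕ → ℝ≥0∞)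
    (hP : Antitone P) : ∑' j, ENNReal.ofReal (w j) * P j ≤ ∑' j, ENNReal.ofReal (v j) * P j := by
  have key : ∀ N : ℕ, ∑ j ∈ Finset.range N, ENNReal.ofReal (w j) * P j +
      ENNReal.ofReal (∑ j ∈ Finset.range N, v j - ∑ j ∈ Finset.range N, w j) * P (N - 1) ≤
      ∑ j ∈ Finset.range N, ENNReal.ofReal (v j) * P j := by
    intro N
    induction N with
    | zero => simp
    | succ N ih =>
      rw [Finset.sum_range_succ (fun j => ENNReal.ofReal (v j) * P j),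
        Finset.sum_range_succ (fun j => ENNReal.ofReal (w j) * P j), Nat.add_sub_cancel]
      have e : ENNReal.ofReal (w N) + ENNReal.ofReal (∑ j ∈ Finset.range (N + 1), v j -
          ∑ j ∈ Finset.range (N + 1), w j) =
          ENNReal.ofReal (∑ j ∈ Finset.range N, v j - ∑ j ∈ Finset.range N, w j) +
            ENNReal.ofReal (v N) := by
        rw [← ENNReal.ofReal_add (hw N) (sub_nonneg.2 (h (N + 1))),
          ← ENNReal.ofReal_add (sub_nonneg.2 (h N)) (hv N), Finset.sum_range_succ,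
          Finset.sum_range_succ]
        congr 1
        ring
      calc ∑ j ∈ Finset.range N, ENNReal.ofReal (w j) * P j + ENNReal.ofReal (w N) * P N +
            ENNReal.ofReal (∑ j ∈ Finset.range (N + 1), v j - ∑ j ∈ Finset.range (N + 1), w j) * P N
          = ∑ j ∈ Finset.range N, ENNReal.ofReal (w j) * P j +
            (ENNReal.ofReal (w N) + ENNReal.ofReal (∑ j ∈ Finset.range (N + 1), v j -
              ∑ j ∈ Finset.range (N + 1), w j)) * P N := by ring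
        _ = ∑ j ∈ Finset.range N, ENNReal.ofReal (w j) * P j +
            ENNReal.ofReal (∑ j ∈ Finset.range N, v j - ∑ j ∈ Finset.range N, w j) * P N +
            ENNReal.ofReal (v N) * P N := by rw [e]; ring
        _ ≤ ∑ j ∈ Finset.range N, ENNReal.ofReal (w j) * P j +
            ENNReal.ofReal (∑ j ∈ Finset.range N, v j - ∑ j ∈ Finset.range N, w j) * P (N - 1) +
            ENNReal.ofReal (v N) * P N := by
            gcongr
            exact hP (Nat.sub_le N 1)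
        _ ≤ _ := by gcongr
  refine ENNReal.tsum_le_of_sum_range_le fun N => ?_
  exact le_trans (le_trans (le_self_add) (key N)) (ENNReal.sum_le_tsum _)

theorem int_rpow (a b : ℝ) (ha : 0 ≤ a) (hab : a ≤ b) :
    ∫⁻ s in Ioc a b, ENNReal.ofReal (s ^ (-(1 / 2) : ℝ)) = ENNReal.ofReal (2 * (√b - √a)) := by
  have hi : IntervalIntegrable (fun s : ℝ => s ^ (-(1 / 2) : ℝ)) volume a b :=
    intervalIntegral.intervalIntegrable_rpow' (by norm_num)
  rw [intervalIntegrable_iff_integrableOn_Ioc_of_le hab] at hi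
  rw [← ofReal_integral_eq_lintegral_ofReal hi]
  · rw [← intervalIntegral.integral_of_le hab, integral_rpow (Or.inl (by norm_num))]
    congr 1
    rw [Real.sqrt_eq_rpow, Real.sqrt_eq_rpow]
    norm_num
    ring
  · refine (ae_restrict_iff' measurableSet_Ioc).2 (Eventually.of_forall fun s hs => ?_)
    exact Real.rpow_nonneg (ha.trans hs.1.le) _

/-- the weights -/
noncomputable def ww (l τ : ℝ) : ℕ → ℝ
  | 0 => 0
  | 1 => 0
  | k + 2 => l * (2 * (√(((k : ℝ) + 1) * τ) - √((k : ℝ) * τ)))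

theorem ww_nonneg (l τ : ℝ) (hl : 0 < l) (hτ : 0 < τ) (k : ℕ) : 0 ≤ ww l τ k := by
  match k with
  | 0 => exact le_rfl
  | 1 => exact le_rfl
  | k + 2 =>
    have h1 : √((k : ℝ) * τ) ≤ √(((k : ℝ) + 1) * τ) := by
      apply Real.sqrt_le_sqrt
      nlinarith
    have : 0 ≤ √(((k : ℝ) + 1) * τ) - √((k : ℝ) * τ) := sub_nonneg.2 h1
    show 0 ≤ l * (2 * (√(((k : ℝ) + 1) * τ) - √((k : ℝ) * τ)))
    positivity

theorem ww_sum (l τ : ℝ) (k : ℕ) :
    ∑ j ∈ Finset.range (k + 2), ww l τ j = 2 * l * √((k : ℝ) * τ) := by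
  induction k with
  | zero => simp [Finset.sum_range_succ, ww]
  | succ k ih =>
    rw [Finset.sum_range_succ, ih]
    show 2 * l * √((k : ℝ) * τ) + l * (2 * (√(((k : ℝ) + 1) * τ) - √((k : ℝ) * τ))) = _
    push_cast
    ring

theorem low (l τ : ℝ) (Φ : ℝ → ℝ≥0∞) (hl : IsL l) (hτ : 0 < τ) (hΦ : AntitoneOn Φ (Ici 0)) :
    ENNReal.ofReal l *
        ∫⁻ s in Ioi (0 : ℝ), ENNReal.ofReal (s ^ (-(1 / 2) : ℝ)) * Φ (s + 2 * τ) ≤
      ∑' k : ℕ, ENNReal.ofReal (√τ * uu k) * Φ ((k : ℝ) * τ) := by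
  have hP : Antitone fun k : ℕ => Φ ((k : ℝ) * τ) := by
    intro i j hij
    refine hΦ (mem_Ici.2 (by positivity)) (mem_Ici.2 (by positivity)) ?_
    exact mul_le_mul_of_nonneg_right (by exact_mod_cast hij) hτ.le
  have hab := abel (ww l τ) (fun k => √τ * uu k) (ww_nonneg l τ hl.pos hτ)
    (fun k => mul_nonneg (Real.sqrt_nonneg _) (uu_nonneg k)) (by
      intro N
      match N with
      | 0 => simp
      | 1 => simp only [Finset.sum_range_one, ww]; exact mul_nonneg (Real.sqrt_nonneg _) (uu_nonneg 0)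
      | k + 2 =>
        rw [ww_sum, ← Finset.mul_sum]
        have h1 := hl.low (k + 1)
        have h2 : √((k : ℝ) * τ) ≤ √(((k + 1 : ℕ) : ℝ) + 1 / 2) * √τ := by
          rw [← Real.sqrt_mul (by positivity)]
          apply Real.sqrt_le_sqrt
          push_cast
          nlinarith
        calc 2 * l * √((k : ℝ) * τ) ≤ 2 * l * (√(((k + 1 : ℕ) : ℝ) + 1 / 2) * √τ) :=
              mul_le_mul_of_nonneg_left h2 (by linarith [hl.pos])
          _ = √τ * (2 * l * √(((k + 1 : ℕ) : ℝ) + 1 / 2)) := by ring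
          _ ≤ √τ * ∑ j ∈ Finset.range (k + 2), uu j :=
              mul_le_mul_of_nonneg_left h1 (Real.sqrt_nonneg _)) _ hP
  refine le_trans ?_ hab
  rw [lint hτ, ← ENNReal.tsum_mul_left]
  have h1 : ∀ k : ℕ, ENNReal.ofReal l *
      ∫⁻ s in II τ k, ENNReal.ofReal (s ^ (-(1 / 2) : ℝ)) * Φ (s + 2 * τ) ≤
      ENNReal.ofReal (ww l τ (k + 2)) * Φ (((k + 2 : ℕ) : ℝ) * τ) := by
    intro k
    have h2 : ∫⁻ s in II τ k, ENNReal.ofReal (s ^ (-(1 / 2) : ℝ)) * Φ (s + 2 * τ) ≤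
        ∫⁻ s in II τ k, ENNReal.ofReal (s ^ (-(1 / 2) : ℝ)) * Φ (((k + 2 : ℕ) : ℝ) * τ) := by
      refine setLIntegral_mono' (II_meas τ k) fun s hs => ?_
      have hs0 : 0 < s := lt_of_le_of_lt (by positivity) hs.1
      refine mul_le_mul_right (hΦ (mem_Ici.2 (by positivity)) (mem_Ici.2 (by positivity)) ?_) _
      have := hs.1
      push_cast
      linarith
    have h3 : ∫⁻ s in II τ k, ENNReal.ofReal (s ^ (-(1 / 2) : ℝ)) * Φ (((k + 2 : ℕ) : ℝ) * τ) =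
        ENNReal.ofReal (2 * (√(((k : ℝ) + 1) * τ) - √((k : ℝ) * τ))) *
          Φ (((k + 2 : ℕ) : ℝ) * τ) := by
      rw [lintegral_mul_const'' _ (by fun_prop)]
      unfold II
      rw [int_rpow _ _ (by positivity) (by nlinarith)]
    calc ENNReal.ofReal l * ∫⁻ s in II τ k, ENNReal.ofReal (s ^ (-(1 / 2) : ℝ)) * Φ (s + 2 * τ)
        ≤ ENNReal.ofReal l * (ENNReal.ofReal (2 * (√(((k : ℝ) + 1) * τ) - √((k : ℝ) * τ))) *
          Φ (((k + 2 : ℕ) : ℝ) * τ)) := by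
          rw [← h3]
          exact mul_le_mul_right h2 _
      _ = ENNReal.ofReal (ww l τ (k + 2)) * Φ (((k + 2 : ℕ) : ℝ) * τ) := by
          show _ = ENNReal.ofReal (l * (2 * (√(((k : ℝ) + 1) * τ) - √((k : ℝ) * τ)))) * _
          rw [ENNReal.ofReal_mul hl.pos.le, mul_assoc]
  refine (ENNReal.tsum_le_tsum h1).trans ?_
  exact ENNReal.tsum_comp_le_tsum_of_injective (f := fun k : ℕ => k + 2)
    (add_left_injective 2) (fun j => ENNReal.ofReal (ww l τ j) * Φ ((j : ℝ) * τ))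

/-- ABL -/
theorem main : S_ABL := ⟨up, low⟩

end Pool.Agent.N296.TMABL
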